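import Pool.Agent.K1H34.Had2.Stmts
import Pool.Agent.H469R10.HO.Stmts

/-!
# Squares of primes in short intervals, from Hoheisel's theorem
-/

set_option autoImplicit false

namespace Pool.Agent.K1H39.Had2

open Finset Filter Pool.Agent.K1H34.Had2

theorem sq_aux (hH : Pool.Agent.H469R10.HO.Hoheisel) :
    ∃ d : ℝ, 0 < d ∧ d < 1 ∧ ∃ Z₀ : ℝ, 1 ≤ Z₀ ∧ ∀ Z : ℝ, Z₀ ≤ Z →
      ∃ q : ℕ, q.Prime ∧ 3 ≤ q ∧ (q : ℝ) ^ 2 ≤ Z ∧ Z - Z ^ (1 - d) ≤ (q : ℝ) ^ 2 := by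
  obtain ⟨δ, η, hδ, hδ1, hη, X₀, hX₀, hH⟩ := hH
  -- largeness conditions in `z`
  have e1 : ∀ᶠ z : ℝ in atTop, (6 : ℝ) ≤ z ^ (δ / 2) :=
    (tendsto_rpow_atTop (by linarith)).eventually_ge_atTop 6
  have e2 : ∀ᶠ z : ℝ in atTop, (8 : ℝ) ≤ z ^ δ :=
    (tendsto_rpow_atTop hδ).eventually_ge_atTop 8
  have e3 : ∀ᶠ z : ℝ in atTop, (2 : ℝ) ≤ z ^ (1 - δ) :=
    (tendsto_rpow_atTop (by linarith)).eventually_ge_atTop 2
  have e4 : ∀ᶠ z : ℝ in atTop, (2 * (X₀ : ℝ) + 100) ≤ z := eventually_ge_atTop _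
  obtain ⟨z₀, hz₀⟩ := eventually_atTop.1 (e1.and (e2.and (e3.and e4)))
  refine ⟨δ / 4, by linarith, by linarith, (max z₀ 1) ^ 2, ?_, ?_⟩
  · have h1 : (1 : ℝ) ≤ max z₀ 1 := le_max_right _ _
    nlinarith
  intro Z hZ
  have h1 : (1 : ℝ) ≤ max z₀ 1 := le_max_right _ _
  have hZ1 : 1 ≤ Z := by nlinarith
  obtain ⟨z, hz⟩ : ∃ z, z = Real.sqrt Z := ⟨_, rfl⟩
  have hzz : z ^ 2 = Z := by rw [hz]; exact Real.sq_sqrt (by linarith)
  have hz1 : max z₀ 1 ≤ z := by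
    rw [hz]
    exact Real.le_sqrt_of_sq_le hZ
  have hzz₀ : z₀ ≤ z := le_trans (le_max_left _ _) hz1
  have hz1' : 1 ≤ z := le_trans (le_max_right _ _) hz1
  have hz0 : 0 < z := by linarith
  obtain ⟨c1, c2, c3, c4⟩ := hz₀ z hzz₀
  have hX₀r : (2 : ℝ) ≤ X₀ := by exact_mod_cast hX₀
  -- the parameters
  have w0 : 0 < z ^ (1 - δ) := Real.rpow_pos_of_pos hz0 _
  have w1 : z ^ (1 - δ) * z ^ δ = z := by
    rw [← Real.rpow_add hz0]
    simp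
  have w8 : 8 * z ^ (1 - δ) ≤ z := by
    nlinarith
  set W : ℝ := z ^ (1 - δ) with hW
  obtain ⟨Y, hY⟩ : ∃ Y : ℕ, Y = ⌈W⌉₊ := ⟨_, rfl⟩
  have hY1 : W ≤ Y := by rw [hY]; exact Nat.le_ceil _
  have hY2 : (Y : ℝ) < W + 1 := by rw [hY]; exact Nat.ceil_lt_add_one w0.le
  obtain ⟨F, hF⟩ : ∃ F : ℕ, F = ⌊z⌋₊ := ⟨_, rfl⟩
  have hF1 : (F : ℝ) ≤ z := by rw [hF]; exact Nat.floor_le hz0.le
  have hF2 : z < F + 1 := by rw [hF]; exact Nat.lt_floor_add_one z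
  have hYF : Y ≤ F := by
    have : (Y : ℝ) ≤ F := by linarith
    exact_mod_cast this
  obtain ⟨X, hX⟩ : ∃ X : ℕ, X = F - Y := ⟨_, rfl⟩
  have hXF : X + Y = F := by omega
  have hXr : (X : ℝ) + Y = F := by exact_mod_cast hXF
  have hXhalf : z / 2 ≤ X := by linarith
  have hXX₀ : X₀ ≤ X := by
    have : (X₀ : ℝ) ≤ X := by linarith
    exact_mod_cast this
  have hXz : (X : ℝ) ≤ z := by
    have : (0 : ℝ) ≤ Y := Nat.cast_nonneg _
    linarith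
  have hXpow : (X : ℝ) ^ (1 - δ) ≤ Y :=
    (Real.rpow_le_rpow (Nat.cast_nonneg _) hXz (by linarith)).trans hY1
  have hYX : Y ≤ X := by
    have : (Y : ℝ) ≤ X := by linarith
    exact_mod_cast this
  have hcard := hH X Y hXX₀ hXpow hYX
  have hXgt : (1 : ℝ) < X := by linarith
  have hlog : 0 < Real.log X := Real.log_pos hXgt
  have hYpos : (0 : ℝ) < Y := by linarith
  have hpos : (0 : ℝ) < (((Ioc X (X + Y)).filter Nat.Prime).card : ℝ) :=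
    lt_of_lt_of_le (by positivity) hcard
  have hpos' : 0 < ((Ioc X (X + Y)).filter Nat.Prime).card := by exact_mod_cast hpos
  obtain ⟨q, hq⟩ := Finset.card_pos.1 hpos'
  rw [Finset.mem_filter, Finset.mem_Ioc] at hq
  obtain ⟨⟨q1, q2⟩, qp⟩ := hq
  have q1r : (X : ℝ) < q := by exact_mod_cast q1
  have q2r : (q : ℝ) ≤ F := by
    rw [hXF] at q2
    exact_mod_cast q2
  have q0 : (0 : ℝ) ≤ q := Nat.cast_nonneg _
  refine ⟨q, qp, ?_, ?_, ?_⟩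
  · have : (3 : ℝ) ≤ q := by linarith
    exact_mod_cast this
  · rw [← hzz]
    have : (q : ℝ) ≤ z := q2r.trans hF1
    nlinarith
  · -- `q ≥ z - 3 W`
    have hq3 : z - 3 * W ≤ q := by linarith
    have hZpow : Z ^ (1 - δ / 4) = z * (W * z ^ (δ / 2)) := by
      rw [← hzz, ← Real.rpow_natCast, ← Real.rpow_mul hz0.le, hW, ← Real.rpow_add hz0]
      have : z * z ^ (1 - δ + δ / 2) = z ^ (1 + (1 - δ + δ / 2)) := by
        rw [Real.rpow_add hz0 1, Real.rpow_one]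
      rw [this]
      congr 1
      push_cast
      ring
    rw [hZpow, ← hzz]
    have h6 : z * (W * 6) ≤ z * (W * z ^ (δ / 2)) := by
      gcongr
    have h7 : (z - 3 * W) ^ 2 ≤ (q : ℝ) ^ 2 := by
      have : 0 ≤ z - 3 * W := by linarith
      nlinarith
    nlinarith [sq_nonneg W]

theorem t_SQ : Pool.Agent.H469R10.HO.Hoheisel → S_SQ := fun h => sq_aux h

end Pool.Agent.K1H39.Had2
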